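import Pool.Agent.U6.VE.Stm

/-!
Project VE (helper6), package FJ2: the Fejer kernel, lower direction.
-/

set_option autoImplicit false

namespace Pool.Agent.U492.VE

open MeasureTheory Pool.Agent.U6.VE
open scoped BigOperators

/-- the triangle function of height 2 on `[-1/2, 1/2]` -/
noncomputable def tri (a : ℝ) : ℝ := max 0 (2 * (1 - 2 * |a|))

theorem tri_continuous : Continuous tri := by
  unfold tri
  fun_prop

theorem tri_nonneg (a : ℝ) : 0 ≤ tri a := le_max_left _ _

theorem tri_le (a : ℝ) : tri a ≤ 2 := by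
  unfold tri
  have := abs_nonneg a
  exact max_le (by norm_num) (by linarith)

theorem tri_zero {a : ℝ} (ha : 1 / 2 ≤ |a|) : tri a = 0 := by
  unfold tri
  exact max_eq_left (by linarith)

theorem tri_pos {a : ℝ} (h0 : 0 ≤ a) (ha : a ≤ 1 / 2) : tri a = 2 * (1 - 2 * a) := by
  unfold tri
  rw [abs_of_nonneg h0]
  exact max_eq_right (by linarith)

theorem tri_neg (a : ℝ) : tri (-a) = tri a := by
  unfold tri
  rw [abs_neg]

theorem tri_integrable : Integrable (fun a => (tri a : ℂ)) := by
  have h : HasCompactSupport (fun a => (tri a : ℂ)) := by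
    apply HasCompactSupport.intro (isCompact_Icc (a := (-1 / 2 : ℝ)) (b := 1 / 2))
    intro x hx
    have : 1 / 2 ≤ |x| := by
      by_contra hc
      push Not at hc
      rw [abs_lt] at hc
      exact hx ⟨by linarith, by linarith⟩
    rw [tri_zero this, Complex.ofReal_zero]
  exact (Complex.continuous_ofReal.comp tri_continuous).integrable_of_hasCompactSupport h

theorem ee_continuous : Continuous ee := by
  unfold ee
  fun_prop

theorem norm_ee (x : ℝ) : ‖ee x‖ = 1 := by
  unfold ee
  exact Complex.norm_exp_ofReal_mul_I _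

theorem ee_add (x y : ℝ) : ee (x + y) = ee x * ee y := by
  unfold ee
  rw [← Complex.exp_add]
  congr 1
  push_cast
  ring

theorem ee_sum {k : ℕ} (f : Fin k → ℝ) : ee (∑ j, f j) = ∏ j, ee (f j) := by
  unfold ee
  rw [← Complex.exp_sum]
  congr 1
  push_cast
  rw [Finset.mul_sum, Finset.sum_mul]

theorem ee_neg_add (x : ℝ) : ee (-x) + ee x = ((2 * Real.cos (2 * Real.pi * x) : ℝ) : ℂ) := by
  unfold ee
  push_cast
  rw [Complex.cos]
  ring_nf

/-- the transform of the triangle function -/
noncomputable def kk (u : ℝ) : ℝ := ∫ a in (0 : ℝ)..(1 / 2), 4 * (1 - 2 * a) * Real.cos (2 * Real.pi * (a * u))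

theorem kk_eq (u : ℝ) : ∫ a : ℝ, (tri a : ℂ) * ee (a * u) = ((kk u : ℝ) : ℂ) := by
  have hcont : Continuous fun a : ℝ => (tri a : ℂ) * ee (a * u) :=
    (Complex.continuous_ofReal.comp tri_continuous).mul
      (ee_continuous.comp (continuous_id.mul continuous_const))
  have hcont' : Continuous fun a : ℝ => (tri a : ℂ) * ee (-(a * u)) :=
    (Complex.continuous_ofReal.comp tri_continuous).mul
      (ee_continuous.comp (continuous_id.mul continuous_const).neg)
  have h1 : ∫ a in Set.Ioc (-(1 / 2) : ℝ) (1 / 2), (tri a : ℂ) * ee (a * u)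
      = ∫ a : ℝ, (tri a : ℂ) * ee (a * u) := by
    apply setIntegral_eq_integral_of_forall_compl_eq_zero
    intro x hx
    have : 1 / 2 ≤ |x| := by
      by_contra hc
      push Not at hc
      rw [abs_lt] at hc
      exact hx ⟨by linarith, by linarith⟩
    rw [tri_zero this, Complex.ofReal_zero, zero_mul]
  rw [← h1, ← intervalIntegral.integral_of_le (by norm_num)]
  rw [← intervalIntegral.integral_add_adjacent_intervals (b := 0)
    (hcont.intervalIntegrable _ _) (hcont.intervalIntegrable _ _)]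
  have h2 : ∫ a in (-(1 / 2) : ℝ)..0, (tri a : ℂ) * ee (a * u)
      = ∫ a in (0 : ℝ)..(1 / 2), (tri a : ℂ) * ee (-(a * u)) := by
    have h3 := intervalIntegral.integral_comp_neg (a := (0 : ℝ)) (b := 1 / 2)
      (fun a : ℝ => (tri a : ℂ) * ee (a * u))
    rw [neg_zero] at h3
    rw [← h3]
    congr 1
    funext a
    rw [tri_neg, neg_mul]
  rw [h2, ← intervalIntegral.integral_add (hcont'.intervalIntegrable _ _) (hcont.intervalIntegrable _ _)]
  unfold kk
  rw [← intervalIntegral.integral_ofReal]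
  apply intervalIntegral.integral_congr
  intro a ha
  rw [Set.uIcc_of_le (by norm_num)] at ha
  simp only
  rw [← mul_add, ee_neg_add, tri_pos ha.1 ha.2]
  push_cast
  ring

theorem kk_formula {u : ℝ} (hu : u ≠ 0) :
    kk u = 8 * (1 - Real.cos (Real.pi * u)) / (2 * Real.pi * u) ^ 2 := by
  have hpi := Real.pi_pos
  set w : ℝ := 2 * Real.pi * u with hw
  have hw0 : w ≠ 0 := by rw [hw]; positivity
  have hder : ∀ a : ℝ, HasDerivAt (fun a : ℝ => 4 * ((1 - 2 * a) * (Real.sin (w * a) / w) -
      2 * Real.cos (w * a) / w ^ 2)) (4 * (1 - 2 * a) * Real.cos (2 * Real.pi * (a * u))) a := by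
    intro a
    have h1 : HasDerivAt (fun a : ℝ => w * a) w a := by
      simpa using (hasDerivAt_id a).const_mul w
    have h2 : HasDerivAt (fun a : ℝ => Real.sin (w * a)) (Real.cos (w * a) * w) a := h1.sin
    have h3 : HasDerivAt (fun a : ℝ => Real.cos (w * a)) (-Real.sin (w * a) * w) a := h1.cos
    have h4 : HasDerivAt (fun a : ℝ => 1 - 2 * a) (-2) a := by
      simpa using ((hasDerivAt_id a).const_mul 2).const_sub 1
    have h5 := ((h4.mul (h2.div_const w)).sub ((h3.const_mul 2).div_const (w ^ 2))).const_mul 4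
    refine h5.congr_deriv ?_
    have h6 : 2 * Real.pi * (a * u) = w * a := by rw [hw]; ring
    rw [h6]
    field_simp
    ring
  unfold kk
  rw [intervalIntegral.integral_eq_sub_of_hasDerivAt (fun a _ => hder a)
    (Continuous.intervalIntegrable (by fun_prop) _ _)]
  have h7 : w * (1 / 2) = Real.pi * u := by rw [hw]; ring
  rw [h7]
  simp only [mul_zero, Real.sin_zero, Real.cos_zero]
  field_simp
  ring

theorem kk_zero : kk 0 = 1 := by
  unfold kk
  simp only [mul_zero, Real.cos_zero, mul_one]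
  have hder : ∀ a : ℝ, HasDerivAt (fun a : ℝ => 4 * (a - a ^ 2)) (4 * (1 - 2 * a)) a := by
    intro a
    have h := ((hasDerivAt_id a).sub (hasDerivAt_pow 2 a)).const_mul 4
    refine h.congr_deriv ?_
    norm_num
  rw [intervalIntegral.integral_eq_sub_of_hasDerivAt (fun a _ => hder a)
    (Continuous.intervalIntegrable (by fun_prop) _ _)]
  norm_num

theorem kk_nonneg (u : ℝ) : 0 ≤ kk u := by
  by_cases hu : u = 0
  · rw [hu, kk_zero]; norm_num
  · rw [kk_formula hu]
    have := Real.cos_le_one (Real.pi * u)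
    have h1 : 0 ≤ 1 - Real.cos (Real.pi * u) := by linarith
    positivity

theorem kk_lower {u : ℝ} (hu : |u| < 1) : 4 / Real.pi ^ 2 ≤ kk u := by
  have hpi := Real.pi_pos
  by_cases hu0 : u = 0
  · rw [hu0, kk_zero, div_le_one (by positivity)]
    have := Real.pi_gt_three
    nlinarith
  · rw [kk_formula hu0]
    have h1 : |Real.pi * u| ≤ Real.pi := by
      rw [abs_mul, abs_of_pos hpi]
      nlinarith
    have h2 := Real.cos_le_one_sub_mul_cos_sq h1
    have h3 : 2 * u ^ 2 ≤ 1 - Real.cos (Real.pi * u) := by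
      have h4 : 2 / Real.pi ^ 2 * (Real.pi * u) ^ 2 = 2 * u ^ 2 := by
        field_simp
      linarith
    have h5 : 0 < u ^ 2 := by positivity
    rw [div_le_div_iff₀ (by positivity) (by positivity)]
    have h6 : 4 * (2 * Real.pi * u) ^ 2 = 8 * (2 * u ^ 2) * Real.pi ^ 2 := by ring
    rw [h6]
    have h7 : 0 < Real.pi ^ 2 := by positivity
    nlinarith

/-- the product of triangles -/
noncomputable def Tri {k : ℕ} (α : Fin k → ℝ) : ℝ := ∏ j, tri (α j)

theorem Tri_continuous {k : ℕ} : Continuous (Tri (k := k)) := by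
  unfold Tri
  exact continuous_finsetProd _ fun j _ => tri_continuous.comp (continuous_apply j)

theorem Tri_nonneg {k : ℕ} (α : Fin k → ℝ) : 0 ≤ Tri α := Finset.prod_nonneg fun _ _ => tri_nonneg _

theorem Tri_le {k : ℕ} (α : Fin k → ℝ) : Tri α ≤ 2 ^ k := by
  unfold Tri
  calc ∏ j, tri (α j) ≤ ∏ _j : Fin k, (2 : ℝ) :=
        Finset.prod_le_prod (fun _ _ => tri_nonneg _) (fun _ _ => tri_le _)
    _ = 2 ^ k := by simp

theorem Tri_zero {k : ℕ} {α : Fin k → ℝ} (hα : α ∉ box k (1 / 2)) : Tri α = 0 := by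
  have h : ∃ j, 1 / 2 ≤ |α j| := by
    by_contra hc
    push Not at hc
    apply hα
    rw [box, Set.mem_Icc]
    constructor
    · intro j
      have := (abs_lt.mp (hc j)).1
      simp only
      linarith
    · intro j
      have := (abs_lt.mp (hc j)).2
      simp only
      linarith
  obtain ⟨j, hj⟩ := h
  exact Finset.prod_eq_zero (Finset.mem_univ j) (tri_zero hj)

theorem Tri_integrable {k : ℕ} : Integrable (fun α : Fin k → ℝ => (Tri α : ℂ)) := by
  have h := Integrable.fintype_prod (ι := Fin k) (𝕜 := ℂ) (E := ℝ) (f := fun _ a => (tri a : ℂ))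
    (μ := fun _ => volume) (fun _ => tri_integrable)
  rw [volume_pi]
  refine h.congr (Filter.Eventually.of_forall fun α => ?_)
  simp [Tri]

theorem Tri_transform {k : ℕ} (v : Fin k → ℝ) :
    ∫ α : Fin k → ℝ, (Tri α : ℂ) * ee (∑ j, α j * v j) = ((∏ j, kk (v j) : ℝ) : ℂ) := by
  have h1 : ∀ α : Fin k → ℝ, (Tri α : ℂ) * ee (∑ j, α j * v j)
      = ∏ j, ((tri (α j) : ℂ) * ee (α j * v j)) := by
    intro α
    rw [ee_sum, Tri, Complex.ofReal_prod, Finset.prod_mul_distrib]
  simp only [h1]
  rw [integral_fintype_prod_volume_eq_prod (ι := Fin k) (𝕜 := ℂ) (E := fun _ => ℝ)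
    (fun j a => (tri a : ℂ) * ee (a * v j))]
  rw [Complex.ofReal_prod]
  exact Finset.prod_congr rfl fun j _ => kk_eq (v j)

theorem t_FJ2 : T_FJ2 := by
  intro k
  have hpi := Real.pi_pos
  have hc0 : (0 : ℝ) < (4 / Real.pi ^ 2) ^ k := by positivity
  refine ⟨2 ^ k / (4 / Real.pi ^ 2) ^ k, by positivity, ?_⟩
  intro Y _ μ _ γ hγ
  have hγj : ∀ j, Measurable fun y => γ y j := fun j => (measurable_pi_apply j).comp hγ
  -- joint measurability of the exponential
  have hE : Measurable fun p : Y × (Fin k → ℝ) => ee (∑ j, p.2 j * γ p.1 j) := by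
    apply ee_continuous.measurable.comp
    exact Finset.measurable_sum _ fun j _ =>
      ((measurable_pi_apply j).comp measurable_snd).mul ((hγj j).comp measurable_fst)
  have hE' : Measurable fun p : (Fin k → ℝ) × Y => ee (∑ j, p.1 j * γ p.2 j) := by
    apply ee_continuous.measurable.comp
    exact Finset.measurable_sum _ fun j _ =>
      ((measurable_pi_apply j).comp measurable_fst).mul ((hγj j).comp measurable_snd)
  have hint : Integrable (Function.uncurry fun (y : Y) (α : Fin k → ℝ) =>
      (Tri α : ℂ) * ee (∑ j, α j * γ y j)) (μ.prod volume) := by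
    have h1 : Integrable (fun p : Y × (Fin k → ℝ) => (1 : ℂ) * (Tri p.2 : ℂ)) (μ.prod volume) :=
      Integrable.mul_prod (L := ℂ) (integrable_const (1 : ℂ)) Tri_integrable
    refine h1.mono ?_ (Filter.Eventually.of_forall fun p => ?_)
    · apply Measurable.aestronglyMeasurable
      exact ((Complex.continuous_ofReal.comp Tri_continuous).measurable.comp measurable_snd).mul hE
    · simp only [Function.uncurry, norm_mul, norm_ee, norm_one, one_mul, mul_one]
      exact le_rfl
  set A : Set Y := {y : Y | ∀ j, |γ y j| < 1} with hA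
  have hAm : MeasurableSet A := by
    rw [hA, Set.ofPred_forall]
    exact MeasurableSet.iInter fun j => measurableSet_lt ((hγj j).abs) measurable_const
  -- the double integral
  have hswap : ∫ y, ((∏ j, kk (γ y j) : ℝ) : ℂ) ∂μ
      = ∫ α : Fin k → ℝ, (Tri α : ℂ) * ∫ y, ee (∑ j, α j * γ y j) ∂μ := by
    have h1 := integral_integral_swap hint
    have h2 : ∀ y, ∫ α : Fin k → ℝ, (Tri α : ℂ) * ee (∑ j, α j * γ y j)
        = ((∏ j, kk (γ y j) : ℝ) : ℂ) := fun y => Tri_transform (γ y)
    simp only [h2] at h1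
    rw [h1]
    congr 1
    funext α
    exact integral_const_mul _ _
  have hKint : Integrable (fun y => ((∏ j, kk (γ y j) : ℝ) : ℂ)) μ := by
    have h1 := hint.integral_prod_left
    refine h1.congr (Filter.Eventually.of_forall fun y => ?_)
    exact Tri_transform (γ y)
  have hKint' : Integrable (fun y => (∏ j, kk (γ y j) : ℝ)) μ := by
    refine hKint.re.congr (Filter.Eventually.of_forall fun y => ?_)
    simp only [RCLike.re_to_complex, Complex.ofReal_re]
  have hlow : (4 / Real.pi ^ 2) ^ k * μ.real A ≤ ∫ y, (∏ j, kk (γ y j) : ℝ) ∂μ := by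
    have h1 : ∫ y, A.indicator (fun _ => (4 / Real.pi ^ 2) ^ k) y ∂μ
        = μ.real A * (4 / Real.pi ^ 2) ^ k := by
      rw [integral_indicator_const _ hAm, smul_eq_mul]
    rw [mul_comm, ← h1]
    refine integral_mono_of_nonneg (Filter.Eventually.of_forall fun y => ?_) hKint'
      (Filter.Eventually.of_forall fun y => ?_)
    · exact Set.indicator_nonneg (fun _ _ => hc0.le) y
    · simp only
      by_cases hy : y ∈ A
      · rw [Set.indicator_of_mem hy]
        calc (4 / Real.pi ^ 2) ^ k = ∏ _j : Fin k, (4 / Real.pi ^ 2) := by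
              rw [Finset.prod_const, Finset.card_univ, Fintype.card_fin]
          _ ≤ ∏ j, kk (γ y j) := Finset.prod_le_prod (fun _ _ => by positivity)
              (fun j _ => kk_lower (hy j))
      · rw [Set.indicator_of_notMem hy]
        exact Finset.prod_nonneg fun j _ => kk_nonneg _
  -- the upper bound
  set G : (Fin k → ℝ) → ℂ := fun α => ∫ y, ee (∑ j, α j * γ y j) ∂μ with hG
  have hGm : StronglyMeasurable G :=
    StronglyMeasurable.integral_prod_right' (ν := μ) (f := fun p : (Fin k → ℝ) × Y =>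
      ee (∑ j, p.1 j * γ p.2 j)) hE'.stronglyMeasurable
  have hGb : ∀ α, ‖G α‖ ≤ μ.real Set.univ := by
    intro α
    have := norm_integral_le_of_norm_le_const (μ := μ) (f := fun y => ee (∑ j, α j * γ y j)) (C := 1)
      (Filter.Eventually.of_forall fun y => (norm_ee _).le)
    simpa using this
  have hbox : MeasurableSet (box k (1 / 2)) := measurableSet_Icc
  have hboxfin : volume (box k (1 / 2)) ≠ ⊤ := (isCompact_Icc.measure_lt_top).ne
  have hGint : Integrable (fun α => ‖G α‖) (volume.restrict (box k (1 / 2))) := by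
    have : IsFiniteMeasure (volume.restrict (box k (1 / 2))) :=
      ⟨by rw [Measure.restrict_apply_univ]; exact lt_top_iff_ne_top.mpr hboxfin⟩
    refine Integrable.of_bound hGm.norm.aestronglyMeasurable (μ.real Set.univ)
      (Filter.Eventually.of_forall fun α => ?_)
    rw [norm_norm]
    exact hGb α
  have hup : ‖∫ α : Fin k → ℝ, (Tri α : ℂ) * G α‖ ≤ 2 ^ k * ∫ α in box k (1 / 2), ‖G α‖ := by
    have h1 : ∫ α in box k (1 / 2), (Tri α : ℂ) * G α = ∫ α : Fin k → ℝ, (Tri α : ℂ) * G α := by
      apply setIntegral_eq_integral_of_forall_compl_eq_zero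
      intro α hα
      rw [Tri_zero hα, Complex.ofReal_zero, zero_mul]
    rw [← h1]
    refine (norm_integral_le_integral_norm _).trans ?_
    rw [← integral_const_mul]
    refine integral_mono_of_nonneg (Filter.Eventually.of_forall fun α => norm_nonneg _)
      (hGint.const_mul _) (Filter.Eventually.of_forall fun α => ?_)
    simp only
    rw [norm_mul, Complex.norm_real, Real.norm_of_nonneg (Tri_nonneg α)]
    exact mul_le_mul_of_nonneg_right (Tri_le α) (norm_nonneg _)
  have hreal : ∫ y, (∏ j, kk (γ y j) : ℝ) ∂μ ≤ 2 ^ k * ∫ α in box k (1 / 2), ‖G α‖ := by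
    have hcast : ∫ y, ((∏ j, kk (γ y j) : ℝ) : ℂ) ∂μ = ((∫ y, (∏ j, kk (γ y j) : ℝ) ∂μ : ℝ) : ℂ) :=
      integral_ofReal (μ := μ) (f := fun y => (∏ j, kk (γ y j) : ℝ))
    rw [hcast] at hswap
    calc ∫ y, (∏ j, kk (γ y j) : ℝ) ∂μ ≤ ‖((∫ y, (∏ j, kk (γ y j) : ℝ) ∂μ : ℝ) : ℂ)‖ := by
          rw [Complex.norm_real]
          exact le_abs_self _
      _ = ‖∫ α : Fin k → ℝ, (Tri α : ℂ) * G α‖ := by rw [hswap]
      _ ≤ _ := hup
  have hfin := hlow.trans hreal
  rw [div_mul_eq_mul_div, le_div_iff₀ hc0, mul_comm]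
  exact hfin

end Pool.Agent.U492.VE
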